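import Mathlib

/-! Dewdney-Vranch question: a twisted curve on which no infinite set gives a solution of
Crum's problem through Voronoi regions. -/

namespace Pool.Agent.Results.MP_5b0acc_co.SphereCurve

open Set MeasureTheory

/-- Euclidean three-space. -/
abbrev E3 := EuclideanSpace ℝ (Fin 3)

/-- A curve: the image of a continuous injective map from an interval. -/
def IsCurve (G : Set E3) : Prop :=
  ∃ (I : Set ℝ) (f : ℝ → E3), I.OrdConnected ∧ I.Nontrivial ∧ ContinuousOn f I ∧ InjOn f I ∧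
    G = f '' I

/-- No four distinct points of `G` lie in a common plane. -/
def Twisted (G : Set E3) : Prop :=
  ∀ a ∈ G, ∀ b ∈ G, ∀ c ∈ G, ∀ d ∈ G, a ≠ b → a ≠ c → a ≠ d → b ≠ c → b ≠ d → c ≠ d →
    ¬ Coplanar ℝ ({a, b, c, d} : Set E3)

/-- The Voronoi region of `x` with respect to `S`. -/
def Vor (S : Set E3) (x : E3) : Set E3 := {y | ∀ z ∈ S, z ≠ x → dist y x < dist y z}

noncomputable def g (t : ℝ) : E3 :=
  !₂[2 * t / (1 + t ^ 2 + t ^ 4), 2 * t ^ 2 / (1 + t ^ 2 + t ^ 4),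
    (t ^ 2 + t ^ 4 - 1) / (1 + t ^ 2 + t ^ 4)]

lemma den_pos (t : ℝ) : 0 < 1 + t ^ 2 + t ^ 4 := by positivity

lemma g_cont : Continuous g := by
  unfold g
  have h : ∀ t : ℝ, 1 + t ^ 2 + t ^ 4 ≠ 0 := fun t => (den_pos t).ne'
  refine (PiLp.continuous_toLp 2 _).comp ?_
  refine continuous_pi fun i => ?_
  fin_cases i
  · simp only [Fin.zero_eta, Matrix.cons_val_zero]; fun_prop (disch := exact h)
  · simp only [Fin.mk_one, Matrix.cons_val_one, Matrix.cons_val_zero]; fun_prop (disch := exact h)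
  · simp only [Fin.reduceFinMk, Matrix.cons_val]; fun_prop (disch := exact h)

lemma g_inj : InjOn g (Ioi 0) := by
  intro s hs t ht h
  have h0 := congrArg (fun v : E3 => v 0) h
  have h1 := congrArg (fun v : E3 => v 1) h
  simp only [g, Matrix.cons_val_zero, Matrix.cons_val_one] at h0 h1
  have hs' : (0 : ℝ) < s := hs
  have ht' : (0 : ℝ) < t := ht
  have ds := den_pos s
  have dt := den_pos t
  have e1 : 2 * s ^ 2 / (1 + s ^ 2 + s ^ 4) = s * (2 * s / (1 + s ^ 2 + s ^ 4)) := by ring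
  have e2 : 2 * t ^ 2 / (1 + t ^ 2 + t ^ 4) = t * (2 * t / (1 + t ^ 2 + t ^ 4)) := by ring
  rw [e1, e2, h0] at h1
  have : 0 < 2 * t / (1 + t ^ 2 + t ^ 4) := by positivity
  exact mul_right_cancel₀ this.ne' h1

/-- four distinct positive roots kill `A t^4 + B t^2 + C t + D`. -/
lemma quart {A B C D a b c d : ℝ} (ha : 0 < a) (hb : 0 < b) (hc : 0 < c) (hd : 0 < d)
    (ab : a ≠ b) (ac : a ≠ c) (ad : a ≠ d) (bc : b ≠ c) (bd : b ≠ d) (cd : c ≠ d)
    (e1 : A * a ^ 4 + B * a ^ 2 + C * a + D = 0) (e2 : A * b ^ 4 + B * b ^ 2 + C * b + D = 0)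
    (e3 : A * c ^ 4 + B * c ^ 2 + C * c + D = 0) (e4 : A * d ^ 4 + B * d ^ 2 + C * d + D = 0) :
    A = 0 ∧ B = 0 ∧ C = 0 ∧ D = 0 := by
  have f : ∀ x y : ℝ, x ≠ y → A * x ^ 4 + B * x ^ 2 + C * x + D = 0 →
      A * y ^ 4 + B * y ^ 2 + C * y + D = 0 →
      A * (x ^ 3 + x ^ 2 * y + x * y ^ 2 + y ^ 3) + B * (x + y) + C = 0 := by
    intro x y hxy h1 h2
    have : (x - y) * (A * (x ^ 3 + x ^ 2 * y + x * y ^ 2 + y ^ 3) + B * (x + y) + C) = 0 := by
      linear_combination h1 - h2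
    exact (mul_eq_zero.1 this).resolve_left (sub_ne_zero.2 hxy)
  have f2 : ∀ x y : ℝ, x ≠ y →
      A * (a ^ 3 + a ^ 2 * x + a * x ^ 2 + x ^ 3) + B * (a + x) + C = 0 →
      A * (a ^ 3 + a ^ 2 * y + a * y ^ 2 + y ^ 3) + B * (a + y) + C = 0 →
      A * (a ^ 2 + a * x + a * y + x ^ 2 + x * y + y ^ 2) + B = 0 := by
    intro x y hxy h1 h2
    have : (x - y) * (A * (a ^ 2 + a * x + a * y + x ^ 2 + x * y + y ^ 2) + B) = 0 := by
      linear_combination h1 - h2
    exact (mul_eq_zero.1 this).resolve_left (sub_ne_zero.2 hxy)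
  have g1 := f a b ab e1 e2
  have g2 := f a c ac e1 e3
  have g3 := f a d ad e1 e4
  have k1 := f2 b c bc g1 g2
  have k2 := f2 b d bd g1 g3
  have : (c - d) * ((a + b + c + d) * A) = 0 := by linear_combination k1 - k2
  have hA : A = 0 := by
    have := (mul_eq_zero.1 this).resolve_left (sub_ne_zero.2 cd)
    exact (mul_eq_zero.1 this).resolve_left (by positivity)
  have hB : B = 0 := by rw [hA] at k1; linarith
  have hC : C = 0 := by rw [hA, hB] at g1; linarith
  have hD : D = 0 := by rw [hA, hB, hC] at e1; linarith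
  exact ⟨hA, hB, hC, hD⟩

lemma inner_g (y : E3) (m t : ℝ) :
    (inner ℝ y (g t) - m) * (1 + t ^ 2 + t ^ 4) =
      (y 2 - m) * t ^ 4 + (2 * y 1 + y 2 - m) * t ^ 2 + (2 * y 0) * t + (-y 2 - m) := by
  have := (den_pos t).ne'
  simp only [g, PiLp.inner_apply, Fin.sum_univ_three, Matrix.cons_val_zero, Matrix.cons_val_one,
    Matrix.cons_val, RCLike.inner_apply, conj_trivial]
  field_simp
  ring

lemma zero_of {y : E3} {m a b c d : ℝ} (ha : 0 < a) (hb : 0 < b) (hc : 0 < c) (hd : 0 < d)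
    (ab : a ≠ b) (ac : a ≠ c) (ad : a ≠ d) (bc : b ≠ c) (bd : b ≠ d) (cd : c ≠ d)
    (e1 : inner ℝ y (g a) = m) (e2 : inner ℝ y (g b) = m) (e3 : inner ℝ y (g c) = m)
    (e4 : inner ℝ y (g d) = m) : y = 0 := by
  have k : ∀ t, inner ℝ y (g t) = m →
      (y 2 - m) * t ^ 4 + (2 * y 1 + y 2 - m) * t ^ 2 + (2 * y 0) * t + (-y 2 - m) = 0 := by
    intro t ht
    rw [← inner_g, ht]; ring
  obtain ⟨h1, h2, h3, h4⟩ := quart ha hb hc hd ab ac ad bc bd cd (k a e1) (k b e2) (k c e3)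
    (k d e4)
  ext i
  fin_cases i
  · simp only [Fin.zero_eta, PiLp.zero_apply]; linarith
  · simp only [Fin.mk_one, PiLp.zero_apply]; linarith
  · simp only [Fin.reduceFinMk, PiLp.zero_apply]; linarith

lemma twisted : Twisted (g '' Ioi 0) := by
  rintro _ ⟨a, ha, rfl⟩ _ ⟨b, hb, rfl⟩ _ ⟨c, hc, rfl⟩ _ ⟨d, hd, rfl⟩ ab ac ad bc bd cd h
  set W := vectorSpan ℝ ({g a, g b, g c, g d} : Set E3) with hW
  have hf : Module.finrank ℝ W ≤ 2 := h.finrank_le_two
  have ho : Module.finrank ℝ W + Module.finrank ℝ Wᗮ = 3 := by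
    rw [Submodule.finrank_add_finrank_orthogonal]; simp
  have hne : Wᗮ ≠ ⊥ := by
    intro h0
    rw [h0, finrank_bot] at ho
    omega
  obtain ⟨y, hy, y0⟩ := Submodule.exists_mem_ne_zero_of_ne_bot hne
  have key : ∀ p ∈ ({g a, g b, g c, g d} : Set E3), inner ℝ y p = inner ℝ y (g a) := by
    intro p hp
    have : p -ᵥ g a ∈ W := vsub_mem_vectorSpan ℝ hp (by simp)
    have h2 := (Submodule.mem_orthogonal' W y).1 hy _ this
    rw [vsub_eq_sub, inner_sub_right] at h2
    linarith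
  exact y0 (zero_of ha hb hc hd (fun e => ab (by rw [e])) (fun e => ac (by rw [e]))
    (fun e => ad (by rw [e])) (fun e => bc (by rw [e])) (fun e => bd (by rw [e]))
    (fun e => cd (by rw [e])) rfl (key _ (by simp)) (key _ (by simp)) (key _ (by simp)))

lemma norm_g (t : ℝ) : ‖g t‖ ^ 2 = 1 := by
  have := (den_pos t).ne'
  rw [EuclideanSpace.real_norm_sq_eq]
  simp only [g, Fin.sum_univ_three, Matrix.cons_val_zero, Matrix.cons_val_one, Matrix.cons_val]
  field_simp
  ring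

lemma clos {S : Set E3} {x y z : E3} (hy : y ∈ closure (Vor S x)) (hz : z ∈ S) (hzx : z ≠ x) :
    dist y x ≤ dist y z := by
  have : Vor S x ⊆ {y | dist y x ≤ dist y z} := fun w hw => (hw z hz hzx).le
  exact (closure_minimal this (isClosed_le (by fun_prop) (by fun_prop))) hy

lemma inner_le {y : E3} {s t : ℝ} (h : dist y (g s) ≤ dist y (g t)) :
    inner ℝ y (g t) ≤ inner ℝ y (g s) := by
  rw [dist_eq_norm, dist_eq_norm] at h
  have h2 : ‖y - g s‖ ^ 2 ≤ ‖y - g t‖ ^ 2 := by gcongr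
  rw [norm_sub_sq_real, norm_sub_sq_real, norm_g, norm_g] at h2
  linarith

lemma five {A B C D a b c d e : ℝ} (ha : 0 < a) (ab : a < b) (bc : b < c) (cd : c < d)
    (de : d < e) (P : ℝ → ℝ) (hP : ∀ t, P t = A * t ^ 4 + B * t ^ 2 + C * t + D)
    (h1 : P a ≤ 0) (h2 : P b = 0) (h3 : P c ≤ 0) (h4 : P d = 0) (h5 : P e ≤ 0) :
    P a = 0 ∧ P c = 0 := by
  have id1 : (b + c + d + e) * ((e - c) * ((c - b) * (d - c)) * ((e - b) * (e - d))) * P a
      + (a + b + d + e) * ((e - a) * ((b - a) * (d - a)) * ((e - b) * (e - d))) * P c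
      + (a + b + c + d) * ((c - a) * ((b - a) * (d - a)) * ((c - b) * (d - c))) * P e = 0 := by
    have hb := h2
    have hd := h4
    rw [hP] at hb hd
    have hbd : (d - b) ≠ 0 := by linarith [sub_pos.2 (bc.trans cd)] |> fun h => h
    have hC : C = -(A * (b ^ 3 + b ^ 2 * d + b * d ^ 2 + d ^ 3) + B * (b + d)) := by
      have : (d - b) * (C + (A * (b ^ 3 + b ^ 2 * d + b * d ^ 2 + d ^ 3) + B * (b + d))) = 0 := by
        linear_combination hd - hb
      have := (mul_eq_zero.1 this).resolve_left hbd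
      linarith
    have hD : D = -(A * b ^ 4 + B * b ^ 2 + C * b) := by linarith
    rw [hP, hP, hP, hD, hC]
    ring
  have p1 : 0 < (b + c + d + e) * ((e - c) * ((c - b) * (d - c)) * ((e - b) * (e - d))) := by
    have : 0 < e - c := by linarith
    have : 0 < c - b := by linarith
    have : 0 < d - c := by linarith
    have : 0 < e - b := by linarith
    have : 0 < e - d := by linarith
    have : 0 < b + c + d + e := by linarith
    positivity
  have p2 : 0 < (a + b + d + e) * ((e - a) * ((b - a) * (d - a)) * ((e - b) * (e - d))) := by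
    have : 0 < e - a := by linarith
    have : 0 < b - a := by linarith
    have : 0 < d - a := by linarith
    have : 0 < e - b := by linarith
    have : 0 < e - d := by linarith
    have : 0 < a + b + d + e := by linarith
    positivity
  have p3 : 0 < (a + b + c + d) * ((c - a) * ((b - a) * (d - a)) * ((c - b) * (d - c))) := by
    have : 0 < c - a := by linarith
    have : 0 < b - a := by linarith
    have : 0 < d - a := by linarith
    have : 0 < c - b := by linarith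
    have : 0 < d - c := by linarith
    have : 0 < a + b + c + d := by linarith
    positivity
  have q1 := mul_nonpos_of_nonneg_of_nonpos p1.le h1
  have q2 := mul_nonpos_of_nonneg_of_nonpos p2.le h3
  have q3 := mul_nonpos_of_nonneg_of_nonpos p3.le h5
  constructor
  · exact (mul_eq_zero.1 (by linarith : _ * P a = 0)).resolve_left p1.ne'
  · exact (mul_eq_zero.1 (by linarith : _ * P c = 0)).resolve_left p2.ne'

theorem result : ∃ G : Set E3, IsCurve G ∧ Twisted G ∧
    ∀ S ⊆ G, S.Infinite → ∃ x ∈ S, ∃ x' ∈ S, x ≠ x' ∧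
      μH[2] (closure (Vor S x) ∩ closure (Vor S x')) = 0 := by
  refine ⟨g '' Ioi 0, ⟨Ioi 0, g, ordConnected_Ioi, ⟨1, by simp, 2, by simp, by norm_num⟩,
    g_cont.continuousOn, g_inj, rfl⟩, twisted, ?_⟩
  intro S hS hinf
  set T : Set ℝ := {t | 0 < t ∧ g t ∈ S} with hT
  have hTi : T.Infinite := by
    refine Set.Infinite.of_image g (hinf.mono ?_)
    intro x hx
    obtain ⟨t, ht, rfl⟩ := hS hx
    exact ⟨t, ⟨ht, hx⟩, rfl⟩
  obtain ⟨F, hF, hc⟩ := hTi.exists_subset_card_eq 5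
  let u := F.orderEmbOfFin hc
  have hu : ∀ i, u i ∈ T := fun i => hF (F.orderEmbOfFin_mem hc i)
  have lt : ∀ i j : Fin 5, i < j → u i < u j := fun i j h => u.strictMono h
  have ne : ∀ i j : Fin 5, i ≠ j → g (u i) ≠ g (u j) := fun i j h e =>
    h (u.injective (g_inj (hu i).1 (hu j).1 e))
  refine ⟨g (u 1), (hu 1).2, g (u 3), (hu 3).2, ne 1 3 (by decide), ?_⟩
  have hsub : closure (Vor S (g (u 1))) ∩ closure (Vor S (g (u 3))) ⊆ {0} := by
    rintro y ⟨h1, h3⟩
    set m := inner ℝ y (g (u 1)) with hm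
    have a3 : inner ℝ y (g (u 3)) = m :=
      le_antisymm (inner_le (clos h1 (hu 3).2 (ne 3 1 (by decide))))
        (inner_le (clos h3 (hu 1).2 (ne 1 3 (by decide))))
    have le : ∀ i : Fin 5, i ≠ 1 → (inner ℝ y (g (u i)) - m) * (1 + u i ^ 2 + u i ^ 4) ≤ 0 :=
      fun i hi => mul_nonpos_of_nonpos_of_nonneg
        (sub_nonpos.2 (inner_le (clos h1 (hu i).2 (ne i 1 hi)))) (den_pos _).le
    obtain ⟨k0, k2⟩ := five (hu 0).1 (lt 0 1 (by decide)) (lt 1 2 (by decide))
      (lt 2 3 (by decide)) (lt 3 4 (by decide))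
      (fun t => (inner ℝ y (g t) - m) * (1 + t ^ 2 + t ^ 4)) (inner_g y m)
      (le 0 (by decide)) (by simp [hm]) (le 2 (by decide)) (by simp [a3]) (le 4 (by decide))
    have a0 : inner ℝ y (g (u 0)) = m :=
      sub_eq_zero.1 ((mul_eq_zero.1 k0).resolve_right (den_pos _).ne')
    have a2 : inner ℝ y (g (u 2)) = m :=
      sub_eq_zero.1 ((mul_eq_zero.1 k2).resolve_right (den_pos _).ne')
    exact zero_of (hu 0).1 (hu 1).1 (hu 2).1 (hu 3).1 (lt 0 1 (by decide)).ne
      (lt 0 2 (by decide)).ne (lt 0 3 (by decide)).ne (lt 1 2 (by decide)).ne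
      (lt 1 3 (by decide)).ne (lt 2 3 (by decide)).ne a0 rfl a2 a3
  have := Measure.nullSingletonClass_hausdorff E3 (d := 2) (by norm_num)
  exact measure_mono_null hsub (measure_singleton _)

end Pool.Agent.Results.MP_5b0acc_co.SphereCurve
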